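import Pool.Agent.Y881.CS.Stm
import Pool.Agent.H112R2.Main
import Pool.Agent.H112R2.Gap
import Pool.Agent.H112R2.Final

/-!
# Project CS (helper881), job CS-PFX (helper254)

Sets of small doubling in `ℤ/N` and proper coset progressions of small dimension, from the
near-polynomial Freiman-Ruzsa theorem of `Pool.Agent.H112R2`.
-/

set_option autoImplicit false

namespace Pool.Agent.Y254.CS

open Finset Pool.Agent.TH858 Pool.Agent.TH858.GP Pool.Agent.Y881.CS H112
open scoped Pointwise

theorem mem_XH {N : ℕ} [NeZero N] (H : AddSubgroup (ZMod N)) {d : ℕ} (a : Fin d → ZMod N)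
    (L : Fin d → ℕ) (x : ZMod N) :
    x ∈ XH H a L ↔ ∃ m : Fin d → ℤ, (∀ i, |m i| ≤ L i) ∧ x - ev a m ∈ H := by
  classical
  simp [XH]

theorem pow_card_le {k m : ℕ} (h : k ≤ m) :
    (4 * (k : ℝ) ^ 3) ^ k ≤ (12 * (m : ℝ) ^ 3) ^ m := by
  refine le_trans ?_ (gap_pow_le h)
  have h3 : (0 : ℝ) ≤ (k : ℝ) ^ 3 := by positivity
  exact pow_le_pow_left₀ (by positivity) (by linarith) k

theorem t_PFX : S_PFX := by
  intro N _ A K hA hK
  have hApos : (0 : ℝ) < A.card := by exact_mod_cast hA.card_pos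
  have hK1 : 1 ≤ K := by
    have h1 : (A.card : ℝ) ≤ (A + A).card := by
      exact_mod_cast Finset.card_le_card_add_right hA
    nlinarith
  obtain ⟨κ, hκ⟩ : ∃ κ : ℝ, κ = Real.log (2 * K) := ⟨_, rfl⟩
  have hκlog2 : Real.log 2 ≤ κ := by
    rw [hκ]; exact Real.log_le_log (by norm_num) (by linarith)
  have hκ69 : (0.69 : ℝ) < κ := lt_of_lt_of_le log_two_gt hκlog2
  have hlogκ : 0 ≤ Real.log (1 + κ) := Real.log_nonneg (by linarith)
  obtain ⟨S, X, V, ρ, m, Nm, Ψ, hfin, hV1, hsize, hρ0, hρ12, hX, hN, h1, h2, hm, hXV⟩ :=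
    structure_thm hA hK hK1 hκ
  have hinj := gap_inj S Nm Ψ hN h1
  have hLfin := gap_finite S hfin Nm Ψ hN h1
  have hfinρ : (LL Nm ρ).Finite := hLfin.subset (gap_LL_mono Nm (by linarith))
  obtain ⟨k, v', L, hkm, hlin, hgap, hcard⟩ := discrete_john Nm hρ0.le hfinρ
  have hψ : ∀ a : Fin k → ℤ, Ψ (∑ i, a i • v' i) = ev (fun i => Ψ (v' i)) a := by
    intro a
    rw [map_sum]
    unfold ev
    refine Finset.sum_congr rfl fun i _ => ?_
    rw [map_zsmul, zsmul_eq_mul]
  have hlin' : ∀ a b : Fin k → ℤ, ∑ i, a i • v' i = ∑ i, b i • v' i → a = b := by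
    intro a b hab
    have h0 : ∑ i, (a i - b i) • v' i = 0 := by
      simp only [sub_smul, Finset.sum_sub_distrib]
      rw [hab, sub_self]
    have := Fintype.linearIndependent_iff.1 hlin (fun i => a i - b i) h0
    funext i
    exact sub_eq_zero.1 (this i)
  -- the progression lies in the Bohr set
  have hXHb : ∀ x ∈ XH (ann S) (fun i => Ψ (v' i)) L, x ∈ bohr S ρ := by
    intro x hx
    obtain ⟨a, ha, hxa⟩ := (mem_XH _ _ _ _).1 hx
    have h3 : Ψ (∑ i, a i • v' i) ∈ bohr S ρ :=
      gap_map_mem S Nm Ψ h1 hρ0.le (by linarith) (hgap a ha)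
    rw [hψ] at h3
    have h4 := bohr_add_ann h3 hxa
    rwa [add_sub_cancel] at h4
  have hkap : kap K = κ * (1 + Real.log (1 + κ)) := by rw [kap, ← hκ]
  have hX1 : (1 : ℝ) ≤ X.card := by
    obtain ⟨a, ha⟩ := hA
    obtain ⟨x, hx, _⟩ := hX a ha
    exact_mod_cast Finset.card_pos.2 ⟨x, hx⟩
  refine ⟨ann S, k, fun i => Ψ (v' i), L, ?_, ?_, ?_, ?_⟩
  · rw [← hκ]
    have : (k : ℝ) ≤ m := by exact_mod_cast hkm
    exact this.trans hm
  · intro a b ha hb hab
    rw [← hψ, ← hψ, ← map_sub] at hab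
    have hsub := gap_LL_sub Nm (hgap a ha) (hgap b hb)
    have hlt : Nm (fun i => (((∑ i, a i • v' i - ∑ i, b i • v' i) i : ℤ) : ℝ)) < 1 / 2 :=
      lt_of_le_of_lt hsub (by linarith)
    have hz := gap_LL_eq_zero Nm hN ((h1 _ hlt 0 le_rfl).1 (bohr_zero_of_ann hab le_rfl))
    exact hlin' a b (sub_eq_zero.1 hz)
  · -- the sumset
    have hsub : ((A + XH (ann S) (fun i => Ψ (v' i)) L : Finset (ZMod N)) : Set (ZMod N)) ⊆
        (fun z : ZMod N × ZMod N => z.1 + z.2) '' ((X : Set (ZMod N)) ×ˢ bohr S (1 / 6)) := by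
      intro z hz
      rw [Finset.mem_coe] at hz
      obtain ⟨a, ha, y, hy, rfl⟩ := Finset.mem_add.1 hz
      obtain ⟨x, hx, hax⟩ := hX a ha
      refine ⟨(x, a - x + y), ⟨hx, ?_⟩, by simp only; abel⟩
      exact main_bohr_mono (by linarith) (bohr_add hax (hXHb y hy))
    have hc : (A + XH (ann S) (fun i => Ψ (v' i)) L).card ≤ X.card * (bohr S (1 / 6)).ncard := by
      have hf : ((X : Set (ZMod N)) ×ˢ bohr S (1 / 6)).Finite := (Finset.finite_toSet X).prod hfin
      calc (A + XH (ann S) (fun i => Ψ (v' i)) L).card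
          = ((A + XH (ann S) (fun i => Ψ (v' i)) L : Finset (ZMod N)) : Set (ZMod N)).ncard :=
            (Set.ncard_coe_finset _).symm
        _ ≤ ((fun z : ZMod N × ZMod N => z.1 + z.2) ''
              ((X : Set (ZMod N)) ×ˢ bohr S (1 / 6))).ncard := Set.ncard_le_ncard hsub (hf.image _)
        _ ≤ ((X : Set (ZMod N)) ×ˢ bohr S (1 / 6)).ncard := Set.ncard_image_le hf
        _ = X.card * (bohr S (1 / 6)).ncard := by rw [Set.ncard_prod, Set.ncard_coe_finset]
    calc ((A + XH (ann S) (fun i => Ψ (v' i)) L).card : ℝ)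
        ≤ X.card * (bohr S (1 / 6)).ncard := by exact_mod_cast hc
      _ ≤ X.card * (V * A.card) := mul_le_mul_of_nonneg_left hsize (by positivity)
      _ = (X.card * V) * A.card := by ring
      _ ≤ Real.exp (8000 * κ * (1 + Real.log (1 + κ))) * A.card :=
          mul_le_mul_of_nonneg_right hXV hApos.le
      _ ≤ Real.exp (20000 * kap K) * A.card := by
          refine mul_le_mul_of_nonneg_right (Real.exp_le_exp.2 ?_) hApos.le
          rw [hkap]
          have : 0 ≤ κ * (1 + Real.log (1 + κ)) := by positivity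
          nlinarith
  · -- the size
    have hbl := card_bohr_le hfin hfinρ h2
    have hbfin : (bohr S ρ).Finite := hfin.subset (main_bohr_mono (by linarith))
    have hsub : ((A : Finset (ZMod N)) : Set (ZMod N)) ⊆
        (fun z : ZMod N × ZMod N => z.1 + z.2) '' ((X : Set (ZMod N)) ×ˢ bohr S ρ) := by
      intro a ha
      obtain ⟨x, hx, hax⟩ := hX a ha
      exact ⟨(x, a - x), ⟨hx, hax⟩, by simp⟩
    have hc : A.card ≤ X.card * (bohr S ρ).ncard := by
      have hf : ((X : Set (ZMod N)) ×ˢ bohr S ρ).Finite := (Finset.finite_toSet X).prod hbfin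
      calc A.card = ((A : Finset (ZMod N)) : Set (ZMod N)).ncard := (Set.ncard_coe_finset _).symm
        _ ≤ ((fun z : ZMod N × ZMod N => z.1 + z.2) ''
              ((X : Set (ZMod N)) ×ˢ bohr S ρ)).ncard := Set.ncard_le_ncard hsub (hf.image _)
        _ ≤ ((X : Set (ZMod N)) ×ˢ bohr S ρ).ncard := Set.ncard_image_le hf
        _ = X.card * (bohr S ρ).ncard := by rw [Set.ncard_prod, Set.ncard_coe_finset]
    have h4 : (12 * (m : ℝ) ^ 3) ^ m ≤
        Real.exp ((300 * κ) * (20 * (1 + Real.log (1 + κ)))) := by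
      rcases Nat.eq_zero_or_pos m with h0 | hpos
      · subst h0
        rw [pow_zero]
        exact Real.one_le_exp (by positivity)
      · have hm1 : (0 : ℝ) < m := by exact_mod_cast hpos
        exact pow_le_exp (by positivity) (log_12m_le hκ69 hm hpos) hm (by positivity)
    have hLcard : ((LL Nm ρ).ncard : ℝ) ≤
        Real.exp ((300 * κ) * (20 * (1 + Real.log (1 + κ)))) * (box L).card := by
      calc ((LL Nm ρ).ncard : ℝ) ≤ (((4 * k ^ 3) ^ k * ∏ i, (2 * L i + 1) : ℕ) : ℝ) := by
            exact_mod_cast hcard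
        _ = (4 * (k : ℝ) ^ 3) ^ k * (box L).card := by rw [card_box]; push_cast; ring
        _ ≤ Real.exp ((300 * κ) * (20 * (1 + Real.log (1 + κ)))) * (box L).card :=
            mul_le_mul_of_nonneg_right ((pow_card_le hkm).trans h4) (by positivity)
    have hXle : (X.card : ℝ) ≤ Real.exp (8000 * κ * (1 + Real.log (1 + κ))) := by
      refine le_trans ?_ hXV
      exact le_mul_of_one_le_right (by positivity) hV1
    calc (A.card : ℝ) ≤ X.card * (bohr S ρ).ncard := by exact_mod_cast hc
      _ ≤ X.card * ((LL Nm ρ).ncard * Nat.card (ann S)) := by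
          refine mul_le_mul_of_nonneg_left ?_ (by positivity)
          exact_mod_cast hbl
      _ ≤ Real.exp (8000 * κ * (1 + Real.log (1 + κ))) *
            ((Real.exp ((300 * κ) * (20 * (1 + Real.log (1 + κ)))) * (box L).card) *
              Nat.card (ann S)) := by
          refine mul_le_mul hXle ?_ (by positivity) (by positivity)
          exact mul_le_mul_of_nonneg_right hLcard (by positivity)
      _ = Real.exp (8000 * κ * (1 + Real.log (1 + κ)) +
            (300 * κ) * (20 * (1 + Real.log (1 + κ)))) * (Nat.card (ann S) * (box L).card) := by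
          rw [Real.exp_add]; ring
      _ ≤ Real.exp (20000 * kap K) * (Nat.card (ann S) * (box L).card) := by
          refine mul_le_mul_of_nonneg_right (Real.exp_le_exp.2 ?_) (by positivity)
          rw [hkap]
          have : 0 ≤ κ * (1 + Real.log (1 + κ)) := by positivity
          nlinarith

end Pool.Agent.Y254.CS
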